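import Pool.Agent.helper99.ZR.Spec

/-!
# MP_3c0a64_an, row zr:LIG: the light states
-/

set_option autoImplicit false
set_option linter.unusedVariables false

namespace Pool.Agent.ZR

open Finset
open Pool.Agent.helper32.Cant
open Pool.Agent.GA (nrm chi ch St sg flp Psi rc ph pot rpot far nc gf ncs gfs good mj om pick pat et kap mult)
open scoped ENNReal

theorem LIG_card (n : ℕ) : Fintype.card (St n) = 3 ^ (2 * n) * 2 ^ n := by
  simp [St, Word, ZMod.card]

theorem LIG : LIG_stmt := by
  intro n X _ c κ y ω hω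
  have h : ∀ p : St n, ind (¬ hm c κ y ω p) * NM c κ p ≤ Real.exp y * (ω * 3 ^ (n - κ)) := by
    intro p
    have h0 : 0 ≤ Real.exp y * (ω * 3 ^ (n - κ)) := by positivity
    by_cases hp : hm c κ y ω p
    · simpa [ind, hp] using h0
    · have h1 : NM c κ p ≤ Real.exp y * (ω * 3 ^ (n - κ)) := (not_le.1 hp).le
      simpa [ind, hp] using h1
  refine (Finset.sum_le_card_nsmul _ _ _ fun p _ => h p).trans (le_of_eq ?_)
  rw [Finset.card_univ, LIG_card, nsmul_eq_mul]
  push_cast
  ring

end Pool.Agent.ZR
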